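import Mathlib

set_option autoImplicit false

/-!
# Bounded-length Maker wins in the generalized van der Waerden game

There is a function `C` such that for every finite set `S` of natural numbers Maker can claim a copy
`a S + b` of `S`, `a ≥ 1`, with at most `C |S|` own selections.

Proof. Let `n = |S|`, let `d` be the Hales-Jewett number of `n` for two colours, and map the cube
`{1, ..., n}^d` to the natural numbers by `x ↦ s_(x_1) + ... + s_(x_d)`. Combinatorial lines go to
copies of `S`, so one of any two complementary subsets of the image `V` of the cube contains a copy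
of `S`. By strategy stealing (`steal`) Maker wins with at most `|V| ≤ n^d` selections, also if the
players may play outside `V`.
-/

namespace Pool.Agent.Results.MP_3e1131_co.BoundedMaker

open Finset

/-- `M` contains a copy `a S + b` of `S`, for some integer `a ≥ 1` and some integer `b`. -/
def HasCopy (S M : Finset ℕ) : Prop :=
  ∃ a : ℕ, 1 ≤ a ∧ ∃ b : ℤ, ∀ s ∈ S, ∃ m ∈ M, (m : ℤ) = a * s + b

/-- The position in which Maker owns the set `M`, Breaker owns the set `B` and Maker is to move:
Maker can force, with at most `k` further own selections (each of a number which neither player has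
claimed, each answered by Breaker with such a number), that the set of his numbers has the
property `P`. -/
def Wins (P : Finset ℕ → Prop) : ℕ → Finset ℕ → Finset ℕ → Prop
  | 0, M, _ => P M
  | k + 1, M, B => P M ∨ ∃ x, x ∉ M ∧ x ∉ B ∧
      ∀ y, y ∉ insert x M → y ∉ B → Wins P k (insert x M) (insert y B)

theorem wins_of {P Q : Finset ℕ → Prop} (h : ∀ M, P M → Q M) :
    ∀ k M B, Wins P k M B → Wins Q k M B := by
  intro k
  induction k with
  | zero => intro M B hM; exact h M hM
  | succ k ih =>
    intro M B hM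
    rcases hM with hM | ⟨x, hx1, hx2, hx⟩
    · exact Or.inl (h M hM)
    · exact Or.inr ⟨x, hx1, hx2, fun y hy1 hy2 => ih _ _ (hx y hy1 hy2)⟩

theorem fresh (A B : Finset ℕ) : ∃ z, z ∉ A ∧ z ∉ B := by
  obtain ⟨z, hz⟩ := Infinite.exists_notMem_finset (A ∪ B)
  rw [mem_union, not_or] at hz
  exact ⟨z, hz⟩

/-- Only the part of the position inside the board `V` counts, and more own numbers and fewer
numbers of the opponent do no harm. -/
theorem vmono {P : Finset ℕ → Prop} {V : Finset ℕ}
    (hP : ∀ M M' : Finset ℕ, M ∩ V ⊆ M' → P M → P M') :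
    ∀ k (A B A' B' : Finset ℕ), A ∩ V ⊆ A' → B' ∩ V ⊆ B → Wins P k A B → Wins P k A' B' := by
  intro k
  induction k with
  | zero => intro A B A' B' h1 _ h; exact hP _ _ h1 h
  | succ k ih =>
    intro A B A' B' h1 h2 h
    rcases h with h | ⟨x, hxA, hxB, hx⟩
    · exact Or.inl (hP _ _ h1 h)
    right
    have hz : ∃ z, z ∉ A' ∧ z ∉ B' ∧ (insert x A) ∩ V ⊆ insert z A' := by
      by_cases hxV : x ∈ V ∧ x ∉ A'
      · refine ⟨x, hxV.2, fun hx' => hxB (h2 (mem_inter.2 ⟨hx', hxV.1⟩)), ?_⟩
        intro w hw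
        rw [mem_inter, mem_insert] at hw
        rcases hw.1 with h | h
        · exact mem_insert.2 (Or.inl h)
        · exact mem_insert_of_mem (h1 (mem_inter.2 ⟨h, hw.2⟩))
      · obtain ⟨z, hz1, hz2⟩ := fresh A' B'
        refine ⟨z, hz1, hz2, ?_⟩
        intro w hw
        rw [mem_inter, mem_insert] at hw
        apply mem_insert_of_mem
        rcases hw.1 with h | h
        · subst h
          by_contra hc
          exact hxV ⟨hw.2, hc⟩
        · exact h1 (mem_inter.2 ⟨h, hw.2⟩)
    obtain ⟨z, hzA, hzB, hz⟩ := hz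
    refine ⟨z, hzA, hzB, fun y hy1 hy2 => ?_⟩
    have hy : ∃ y', y' ∉ insert x A ∧ y' ∉ B ∧ (insert y B') ∩ V ⊆ insert y' B := by
      by_cases hyV : y ∈ V ∧ y ∉ B
      · refine ⟨y, fun hc => hy1 (hz (mem_inter.2 ⟨hc, hyV.1⟩)), hyV.2, ?_⟩
        intro w hw
        rw [mem_inter, mem_insert] at hw
        rcases hw.1 with h | h
        · exact mem_insert.2 (Or.inl h)
        · exact mem_insert_of_mem (h2 (mem_inter.2 ⟨h, hw.2⟩))
      · obtain ⟨y', hy1', hy2'⟩ := fresh (insert x A) B
        refine ⟨y', hy1', hy2', ?_⟩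
        intro w hw
        rw [mem_inter, mem_insert] at hw
        apply mem_insert_of_mem
        rcases hw.1 with h | h
        · subst h
          by_contra hc
          exact hyV ⟨hw.2, hc⟩
        · exact h2 (mem_inter.2 ⟨h, hw.2⟩)
    obtain ⟨y', hy1', hy2', hy'⟩ := hy
    exact ih _ _ _ _ hz hy' (hx y' hy1' hy2')

/-- Strategy stealing: if the player who owns `A` cannot win by moving first, then, after any move of
that player, the player who owns `B` wins. -/
theorem steal {P : Finset ℕ → Prop} {V : Finset ℕ}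
    (hP : ∀ M M' : Finset ℕ, M ∩ V ⊆ M' → P M → P M')
    (hV : ∀ C ⊆ V, P C ∨ P (V \ C)) :
    ∀ k (A B : Finset ℕ), (V \ (A ∪ B)).card ≤ k → ¬ Wins P k A B →
      ∀ x, x ∉ A → x ∉ B → Wins P k B (insert x A) := by
  have full : ∀ A B : Finset ℕ, V \ (A ∪ B) = ∅ → ¬ P A → P B := by
    intro A B hAB hA
    rw [sdiff_eq_empty_iff_subset] at hAB
    rcases hV (V ∩ A) inter_subset_left with h | h
    · exact absurd (hP _ _ (fun w hw => (mem_inter.1 (mem_inter.1 hw).1).2) h) hA
    · refine hP _ _ ?_ h
      intro w hw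
      rw [mem_inter, mem_sdiff, mem_inter] at hw
      rcases mem_union.1 (hAB hw.2) with h' | h'
      · exact absurd ⟨hw.2, h'⟩ hw.1.2
      · exact h'
  intro k
  induction k with
  | zero =>
    intro A B hk hn x _ _
    exact full A B (card_eq_zero.1 (Nat.le_zero.1 hk)) hn
  | succ k ih =>
    intro A B hk hn
    have hnA : ¬ P A := fun h => hn (Or.inl h)
    have core : ∀ x ∈ V, x ∉ A → x ∉ B → Wins P (k + 1) B (insert x A) := by
      intro x hxV hxA hxB
      have h1 : ∃ y, y ∉ insert x A ∧ y ∉ B ∧ ¬ Wins P k (insert x A) (insert y B) := by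
        by_contra hc
        apply hn
        right
        refine ⟨x, hxA, hxB, fun y hy1 hy2 => ?_⟩
        by_contra hw
        exact hc ⟨y, hy1, hy2, hw⟩
      obtain ⟨y, hy1, hy2, hy⟩ := h1
      have hcard : (V \ (insert x A ∪ insert y B)).card ≤ k := by
        have hsub : V \ (insert x A ∪ insert y B) ⊆ (V \ (A ∪ B)).erase x := by
          intro w hw
          simp only [mem_sdiff, mem_union, mem_insert, not_or, mem_erase] at hw ⊢
          tauto
        have hmem : x ∈ V \ (A ∪ B) := by
          simp only [mem_sdiff, mem_union, not_or]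
          exact ⟨hxV, hxA, hxB⟩
        have := card_le_card hsub
        rw [card_erase_of_mem hmem] at this
        omega
      right
      exact ⟨y, hy2, hy1, fun z hz1 hz2 => ih _ _ hcard hy z hz2 hz1⟩
    intro x hxA hxB
    by_cases hxV : x ∈ V
    · exact core x hxV hxA hxB
    rcases (V \ (A ∪ B)).eq_empty_or_nonempty with he | ⟨x₁, hx₁⟩
    · exact Or.inl (full A B he hnA)
    simp only [mem_sdiff, mem_union, not_or] at hx₁
    refine vmono hP _ _ _ _ _ inter_subset_left ?_ (core x₁ hx₁.1 hx₁.2.1 hx₁.2.2)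
    intro w hw
    rw [mem_inter, mem_insert] at hw
    apply mem_insert_of_mem
    rcases hw.1 with h | h
    · subst h; exact absurd hw.2 hxV
    · exact h

/-- The first player wins on a finite board of which one of any two complementary parts contains a
winning set. -/
theorem wins_empty {P : Finset ℕ → Prop} {V : Finset ℕ}
    (hP : ∀ M M' : Finset ℕ, M ∩ V ⊆ M' → P M → P M')
    (hV : ∀ C ⊆ V, P C ∨ P (V \ C)) {k : ℕ} (hk : V.card ≤ k) : Wins P k ∅ ∅ := by
  by_contra h
  have h1 := steal hP hV k ∅ ∅ ((card_le_card sdiff_subset).trans hk) h 0 (notMem_empty _)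
    (notMem_empty _)
  exact h (vmono hP _ _ _ _ _ (by simp) (by simp) h1)

open Combinatorics in
/-- Copies of `S` are images of combinatorial lines. -/
theorem copy_of_line {n : ℕ} {ι : Type} [Fintype ι] (s : Fin n → ℕ) (l : Line (Fin n) ι) :
    ∃ a : ℕ, 1 ≤ a ∧ ∃ b : ℕ, ∀ j : Fin n, ∑ i, s (l j i) = a * s j + b := by
  classical
  set t : Finset ι := {i | l.idxFun i = none} with ht
  refine ⟨#t, Finset.card_pos.mpr ⟨l.proper.choose, ?_⟩,
    ∑ i ∈ tᶜ, ((l.idxFun i).map s).getD 0, ?_⟩
  · rw [ht, mem_filter_univ]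
    exact l.proper.choose_spec
  intro j
  rw [← Finset.sum_add_sum_compl t]
  congr 1
  · rw [← smul_eq_mul, ← Finset.sum_const]
    apply Finset.sum_congr rfl
    intro i hi
    rw [ht, Finset.mem_filter] at hi
    rw [l.apply_none _ _ hi.right]
  · apply Finset.sum_congr rfl
    intro i hi
    rw [ht, Finset.compl_filter, Finset.mem_filter] at hi
    obtain ⟨y, hy⟩ := Option.ne_none_iff_exists.mp hi.right
    rw [l.apply_some hy.symm, ← hy]
    simp

/-- There is a function `C` such that for every `n` and every set `S` of `n` natural numbers Maker, who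
moves first, can claim a copy of `S` with at most `C n` own selections. -/
theorem result : ∃ C : ℕ → ℕ, ∀ (n : ℕ) (S : Finset ℕ), S.card = n →
    Wins (HasCopy S) (C n) ∅ ∅ := by
  classical
  have hHJ : ∀ n : ℕ, ∃ N : ℕ, ∃ (ι : Type) (_ : Fintype ι),
      (∀ c : (ι → Fin n) → Bool, ∃ l : Combinatorics.Line (Fin n) ι, l.IsMono c) ∧
        Fintype.card (ι → Fin n) = N := by
    intro n
    obtain ⟨ι, inst, h⟩ := Combinatorics.Line.exists_mono_in_high_dimension (Fin n) Bool
    exact ⟨_, ι, inst, h, rfl⟩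
  choose N hN using hHJ
  refine ⟨N, fun n S hS => ?_⟩
  obtain ⟨ι, inst, hl, hcard⟩ := hN n
  set s : Fin n → ℕ := fun j => S.orderEmbOfFin hS j with hs
  set φ : (ι → Fin n) → ℕ := fun x => ∑ i, s (x i) with hφ
  set V : Finset ℕ := univ.image φ with hVdef
  let P : Finset ℕ → Prop := fun M => ∃ l : Combinatorics.Line (Fin n) ι, ∀ j, φ (l j) ∈ M
  have hφV : ∀ x, φ x ∈ V := fun x => mem_image_of_mem _ (mem_univ _)
  have hP : ∀ M M' : Finset ℕ, M ∩ V ⊆ M' → P M → P M' := by
    rintro M M' h ⟨l, hl⟩
    exact ⟨l, fun j => h (mem_inter.2 ⟨hl j, hφV _⟩)⟩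
  have hV : ∀ C ⊆ V, P C ∨ P (V \ C) := by
    intro C _
    obtain ⟨l, c, hc⟩ := hl (fun x => decide (φ x ∈ C))
    cases c with
    | true => exact Or.inl ⟨l, fun j => by simpa using hc j⟩
    | false => exact Or.inr ⟨l, fun j => mem_sdiff.2 ⟨hφV _, by simpa using hc j⟩⟩
  have hPS : ∀ M, P M → HasCopy S M := by
    rintro M ⟨l, hM⟩
    obtain ⟨a, ha, b, hab⟩ := copy_of_line s l
    refine ⟨a, ha, b, fun x hx => ?_⟩
    have : x ∈ Set.range (S.orderEmbOfFin hS) := by
      rw [Finset.range_orderEmbOfFin]; exact hx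
    obtain ⟨j, hj⟩ := this
    refine ⟨_, hM j, ?_⟩
    rw [hφ]
    simp only
    rw [hab j, hs]
    simp only
    rw [hj]
    push_cast
    ring
  refine wins_of hPS _ _ _ (wins_empty hP hV ?_)
  calc V.card ≤ (univ : Finset (ι → Fin n)).card := card_image_le
    _ = N n := hcard

end Pool.Agent.Results.MP_3e1131_co.BoundedMaker
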